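import Mathlib

set_option autoImplicit false

namespace Pool.Agent.Results.MP_36f34d_co.FiveThirds

open Finset

/-- `ℝ³` with the Euclidean metric -/
abbrev E3 := EuclideanSpace ℝ (Fin 3)

/-- The number of four-point subsets of `P` that are similar to the tetrahedron with vertices
`t 0, t 1, t 2, t 3`: the vertices of the subset can be listed as `f 0, ..., f 3` in such a way that all
six distances `|f i - f j|` are one and the same positive multiple of the distances `|t i - t j|`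
(Mathlib's `Similar`). -/
noncomputable def similarCopies (P : Finset E3) (t : Fin 4 → E3) : ℕ :=
  {S : Finset E3 | S ⊆ P ∧ ∃ f : Fin 4 → E3, (S : Set E3) = Set.range f ∧ Similar f t}.ncard

/-- integer points -/
noncomputable def pt (x : ℤ × ℤ × ℤ) : E3 := !₂[(x.1 : ℝ), (x.2.1 : ℝ), (x.2.2 : ℝ)]

lemma dist_pt (x y : ℤ × ℤ × ℤ) : dist (pt x) (pt y) =
    Real.sqrt (((x.1 - y.1) ^ 2 + (x.2.1 - y.2.1) ^ 2 + (x.2.2 - y.2.2) ^ 2 : ℤ) : ℝ) := by
  rw [EuclideanSpace.dist_eq]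
  congr 1
  simp only [pt, Fin.sum_univ_three, Real.dist_eq, sq_abs, PiLp.toLp_apply, Matrix.cons_val_zero,
    Matrix.cons_val_one, Matrix.cons_val]
  push_cast
  ring

lemma pt_injective : Function.Injective pt := by
  intro x y h
  have h0 : (pt x) 0 = (pt y) 0 := by rw [h]
  have h1 : (pt x) 1 = (pt y) 1 := by rw [h]
  have h2 : (pt x) 2 = (pt y) 2 := by rw [h]
  simp only [pt, PiLp.toLp_apply, Matrix.cons_val_zero, Matrix.cons_val_one, Matrix.cons_val,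
    Int.cast_inj] at h0 h1 h2
  exact Prod.ext h0 (Prod.ext h1 h2)

/-- the standard corner tetrahedron -/
noncomputable def corner : Fin 4 → E3 := ![pt (0, 0, 0), pt (1, 0, 0), pt (0, 1, 0), pt (0, 0, 1)]

lemma corner_indep : AffineIndependent ℝ corner := by
  rw [affineIndependent_iff]
  intro s w hw hs
  classical
  set w' : Fin 4 → ℝ := fun i => if i ∈ s then w i else 0 with hw'
  have e1 : ∑ i, w' i = 0 := by
    rw [← hw]
    simp [hw', Finset.sum_ite_mem]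
  have e2 : ∑ i, w' i • corner i = 0 := by
    rw [← hs]
    have : ∀ i, w' i • corner i = if i ∈ s then w i • corner i else 0 := by
      intro i
      simp only [hw']
      split_ifs <;> simp
    simp_rw [this]
    simp [Finset.sum_ite_mem]
  have c0 : (∑ i, w' i • corner i) 0 = 0 := by rw [e2]; rfl
  have c1 : (∑ i, w' i • corner i) 1 = 0 := by rw [e2]; rfl
  have c2 : (∑ i, w' i • corner i) 2 = 0 := by rw [e2]; rfl
  simp only [Fin.sum_univ_four, corner, pt, PiLp.add_apply, PiLp.smul_apply,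
    Matrix.cons_val_zero, Matrix.cons_val_one, Matrix.cons_val, smul_eq_mul] at c0 c1 c2
  rw [Fin.sum_univ_four] at e1
  push_cast at c0 c1 c2
  have w1 : w' 1 = 0 := by linarith
  have w2 : w' 2 = 0 := by linarith
  have w3 : w' 3 = 0 := by linarith
  have w0 : w' 0 = 0 := by linarith
  intro e he
  have : w' e = w e := by simp [hw', he]
  rw [← this]
  fin_cases e
  · exact w0
  · exact w1
  · exact w2
  · exact w3

/-- parameters: a translation vector `v` and a quaternion `q` -/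
abbrev Par := (ℤ × ℤ × ℤ) × (ℤ × ℤ × ℤ × ℤ)

/-- first image vector of the rotation attached to the quaternion -/
def col1 (q : ℤ × ℤ × ℤ × ℤ) : ℤ × ℤ × ℤ :=
  (q.1 ^ 2 + q.2.1 ^ 2 - q.2.2.1 ^ 2 - q.2.2.2 ^ 2, 2 * (q.2.1 * q.2.2.1 + q.1 * q.2.2.2),
    2 * (q.2.1 * q.2.2.2 - q.1 * q.2.2.1))

/-- second image vector -/
def col2 (q : ℤ × ℤ × ℤ × ℤ) : ℤ × ℤ × ℤ :=
  (2 * (q.2.1 * q.2.2.1 - q.1 * q.2.2.2), q.1 ^ 2 - q.2.1 ^ 2 + q.2.2.1 ^ 2 - q.2.2.2 ^ 2,
    2 * (q.2.2.1 * q.2.2.2 + q.1 * q.2.1))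

/-- third image vector -/
def col3 (q : ℤ × ℤ × ℤ × ℤ) : ℤ × ℤ × ℤ :=
  (2 * (q.2.1 * q.2.2.2 + q.1 * q.2.2.1), 2 * (q.2.2.1 * q.2.2.2 - q.1 * q.2.1),
    q.1 ^ 2 - q.2.1 ^ 2 - q.2.2.1 ^ 2 + q.2.2.2 ^ 2)

/-- the vertices of the tetrahedron -/
def V (p : Par) : Fin 4 → ℤ × ℤ × ℤ := ![p.1, p.1 + col1 p.2, p.1 + col2 p.2, p.1 + col3 p.2]

/-- the norm of the quaternion -/
def nq (q : ℤ × ℤ × ℤ × ℤ) : ℤ := q.1 ^ 2 + q.2.1 ^ 2 + q.2.2.1 ^ 2 + q.2.2.2 ^ 2

/-- squared distance -/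
def sd (x y : ℤ × ℤ × ℤ) : ℤ := (x.1 - y.1) ^ 2 + (x.2.1 - y.2.1) ^ 2 + (x.2.2 - y.2.2) ^ 2

lemma sd_V (p : Par) (i j : Fin 4) : sd (V p i) (V p j) =
    (nq p.2) ^ 2 * sd ((![(0, 0, 0), (1, 0, 0), (0, 1, 0), (0, 0, 1)] : Fin 4 → ℤ × ℤ × ℤ) i)
      ((![(0, 0, 0), (1, 0, 0), (0, 1, 0), (0, 0, 1)] : Fin 4 → ℤ × ℤ × ℤ) j) := by
  obtain ⟨⟨v1, v2, v3⟩, a, b, c, d⟩ := p
  fin_cases i <;> fin_cases j <;>
    simp only [V, sd, nq, col1, col2, col3, Fin.zero_eta, Fin.mk_one, Fin.reduceFinMk,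
      Matrix.cons_val_zero, Matrix.cons_val_one, Matrix.cons_val, Prod.mk_add_mk] <;> ring

lemma col1_sq (q : ℤ × ℤ × ℤ × ℤ) :
    (col1 q).1 ^ 2 + (col1 q).2.1 ^ 2 + (col1 q).2.2 ^ 2 = (nq q) ^ 2 := by
  obtain ⟨a, b, c, d⟩ := q
  simp only [col1, nq]
  ring

lemma corner_eq (i : Fin 4) : corner i =
    pt ((![(0, 0, 0), (1, 0, 0), (0, 1, 0), (0, 0, 1)] : Fin 4 → ℤ × ℤ × ℤ) i) := by
  fin_cases i <;> rfl

lemma similar_V (p : Par) (hq : 0 < nq p.2) : Similar (fun i => pt (V p i)) corner := by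
  refine ⟨Real.toNNReal (nq p.2 : ℝ), ?_, ?_⟩
  · have : (0 : ℝ) < (nq p.2 : ℝ) := by exact_mod_cast hq
    exact (Real.toNNReal_pos.mpr this).ne'
  · intro i j
    have hd : dist (pt (V p i)) (pt (V p j)) = (nq p.2 : ℝ) * dist (corner i) (corner j) := by
      rw [corner_eq, corner_eq, dist_pt, dist_pt]
      have h := sd_V p i j
      unfold sd at h
      rw [h]
      push_cast
      rw [Real.sqrt_mul (by positivity), Real.sqrt_sq (by exact_mod_cast hq.le)]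
    rw [edist_dist, edist_dist, hd, ENNReal.ofReal_mul (by exact_mod_cast hq.le)]
    rfl

/-- the parameters used -/
noncomputable def D (K : ℕ) : Finset Par :=
  (Icc (24 * (K : ℤ) ^ 2) (48 * (K : ℤ) ^ 2) ×ˢ Icc (24 * (K : ℤ) ^ 2) (48 * (K : ℤ) ^ 2) ×ˢ
    Icc (24 * (K : ℤ) ^ 2) (48 * (K : ℤ) ^ 2)) ×ˢ
  (Icc (10 * (K : ℤ) + 1) (11 * (K : ℤ)) ×ˢ Icc 1 (K : ℤ) ×ˢ Icc 1 (K : ℤ) ×ˢ Icc 1 (K : ℤ))

lemma card_D (K : ℕ) : (24 * K ^ 2) ^ 3 * K ^ 4 ≤ (D K).card := by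
  have h1 : (Icc (24 * (K : ℤ) ^ 2) (48 * (K : ℤ) ^ 2)).card = 24 * K ^ 2 + 1 := by
    rw [Int.card_Icc]
    have : 48 * (K : ℤ) ^ 2 + 1 - 24 * (K : ℤ) ^ 2 = ((24 * K ^ 2 + 1 : ℕ) : ℤ) := by push_cast; ring
    rw [this, Int.toNat_natCast]
  have h2 : (Icc (10 * (K : ℤ) + 1) (11 * (K : ℤ))).card = K := by
    rw [Int.card_Icc]
    have : 11 * (K : ℤ) + 1 - (10 * (K : ℤ) + 1) = (K : ℤ) := by ring
    rw [this, Int.toNat_natCast]
  have h3 : (Icc 1 (K : ℤ)).card = K := by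
    rw [Int.card_Icc]
    have : (K : ℤ) + 1 - 1 = (K : ℤ) := by ring
    rw [this, Int.toNat_natCast]
  simp only [D, card_product, h1, h2, h3]
  have : (24 * K ^ 2) ^ 3 ≤ (24 * K ^ 2 + 1) * ((24 * K ^ 2 + 1) * (24 * K ^ 2 + 1)) := by
    have : (24 * K ^ 2) ^ 3 ≤ (24 * K ^ 2 + 1) ^ 3 := Nat.pow_le_pow_left (by omega) 3
    calc _ ≤ _ := this
      _ = _ := by ring
  calc (24 * K ^ 2) ^ 3 * K ^ 4 ≤ ((24 * K ^ 2 + 1) * ((24 * K ^ 2 + 1) * (24 * K ^ 2 + 1))) * K ^ 4 :=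
        Nat.mul_le_mul_right _ this
    _ = _ := by ring

/-- bounds for the three image vectors -/
lemma bounds {K : ℕ} {q : ℤ × ℤ × ℤ × ℤ}
    (hq : q ∈ (Icc (10 * (K : ℤ) + 1) (11 * (K : ℤ)) ×ˢ Icc 1 (K : ℤ) ×ˢ Icc 1 (K : ℤ) ×ˢ
      Icc 1 (K : ℤ))) :
    (50 * (K : ℤ) ^ 2 < (col1 q).1 ∧ (col1 q).1 ≤ 122 * (K : ℤ) ^ 2) ∧
    (50 * (K : ℤ) ^ 2 < (col2 q).2.1 ∧ (col2 q).2.1 ≤ 122 * (K : ℤ) ^ 2) ∧
    (50 * (K : ℤ) ^ 2 < (col3 q).2.2 ∧ (col3 q).2.2 ≤ 122 * (K : ℤ) ^ 2) ∧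
    (|(col1 q).2.1| ≤ 24 * (K : ℤ) ^ 2 ∧ |(col1 q).2.2| ≤ 24 * (K : ℤ) ^ 2) ∧
    (|(col2 q).1| ≤ 24 * (K : ℤ) ^ 2 ∧ |(col2 q).2.2| ≤ 24 * (K : ℤ) ^ 2) ∧
    (|(col3 q).1| ≤ 24 * (K : ℤ) ^ 2 ∧ |(col3 q).2.1| ≤ 24 * (K : ℤ) ^ 2) := by
  obtain ⟨a, b, c, d⟩ := q
  simp only [mem_product, mem_Icc] at hq
  obtain ⟨⟨ha1, ha2⟩, ⟨hb1, hb2⟩, ⟨hc1, hc2⟩, ⟨hd1, hd2⟩⟩ := hq
  have hK : (1 : ℤ) ≤ K := by linarith
  have ha0 : 0 < a := by linarith
  have hb0 : 0 < b := by linarith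
  have hc0 : 0 < c := by linarith
  have hd0 : 0 < d := by linarith
  have hb : 0 < b ^ 2 ∧ b ^ 2 ≤ (K : ℤ) ^ 2 := ⟨by positivity, by nlinarith⟩
  have hc : 0 < c ^ 2 ∧ c ^ 2 ≤ (K : ℤ) ^ 2 := ⟨by positivity, by nlinarith⟩
  have hd : 0 < d ^ 2 ∧ d ^ 2 ≤ (K : ℤ) ^ 2 := ⟨by positivity, by nlinarith⟩
  have ha : 100 * (K : ℤ) ^ 2 < a ^ 2 ∧ a ^ 2 ≤ 121 * (K : ℤ) ^ 2 := ⟨by nlinarith, by nlinarith⟩
  have hab : 0 ≤ a * b ∧ a * b ≤ 11 * (K : ℤ) ^ 2 := ⟨by positivity, by nlinarith⟩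
  have hac : 0 ≤ a * c ∧ a * c ≤ 11 * (K : ℤ) ^ 2 := ⟨by positivity, by nlinarith⟩
  have had : 0 ≤ a * d ∧ a * d ≤ 11 * (K : ℤ) ^ 2 := ⟨by positivity, by nlinarith⟩
  have hbc : 0 ≤ b * c ∧ b * c ≤ (K : ℤ) ^ 2 := ⟨by positivity, by nlinarith⟩
  have hbd : 0 ≤ b * d ∧ b * d ≤ (K : ℤ) ^ 2 := ⟨by positivity, by nlinarith⟩
  have hcd : 0 ≤ c * d ∧ c * d ≤ (K : ℤ) ^ 2 := ⟨by positivity, by nlinarith⟩
  simp only [col1, col2, col3, abs_le]
  refine ⟨⟨by linarith, by linarith⟩, ⟨by linarith, by linarith⟩, ⟨by linarith, by linarith⟩,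
    ⟨⟨by linarith, by linarith⟩, ⟨by linarith, by linarith⟩⟩,
    ⟨⟨by linarith, by linarith⟩, ⟨by linarith, by linarith⟩⟩,
    ⟨⟨by linarith, by linarith⟩, ⟨by linarith, by linarith⟩⟩⟩

/-- the box of integer points -/
noncomputable def Box (K : ℕ) : Finset (ℤ × ℤ × ℤ) :=
  Icc 0 (170 * (K : ℤ) ^ 2) ×ˢ Icc 0 (170 * (K : ℤ) ^ 2) ×ˢ Icc 0 (170 * (K : ℤ) ^ 2)

lemma card_Box (K : ℕ) : (Box K).card = (170 * K ^ 2 + 1) ^ 3 := by
  have h1 : (Icc 0 (170 * (K : ℤ) ^ 2)).card = 170 * K ^ 2 + 1 := by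
    rw [Int.card_Icc]
    have : 170 * (K : ℤ) ^ 2 + 1 - 0 = ((170 * K ^ 2 + 1 : ℕ) : ℤ) := by push_cast; ring
    rw [this, Int.toNat_natCast]
  simp only [Box, card_product, h1]
  ring

lemma V_mem_Box {K : ℕ} {p : Par} (hp : p ∈ D K) (i : Fin 4) : V p i ∈ Box K := by
  obtain ⟨⟨v1, v2, v3⟩, q⟩ := p
  rw [D, mem_product] at hp
  obtain ⟨hv, hq⟩ := hp
  obtain ⟨⟨h1, h2⟩, ⟨h3, h4⟩, ⟨h5, h6⟩, ⟨h7, h8⟩, ⟨h9, h10⟩, ⟨h11, h12⟩⟩ := bounds hq
  simp only [mem_product, mem_Icc] at hv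
  obtain ⟨⟨hv1, hv2⟩, ⟨hv3, hv4⟩, ⟨hv5, hv6⟩⟩ := hv
  rw [abs_le] at h7 h8 h9 h10 h11 h12
  have hK : 0 ≤ (K : ℤ) ^ 2 := by positivity
  fin_cases i <;>
    simp only [V, Box, Fin.zero_eta, Fin.mk_one, Fin.reduceFinMk, Matrix.cons_val_zero,
      Matrix.cons_val_one, Matrix.cons_val, mem_product, mem_Icc, Prod.fst_add, Prod.snd_add] <;>
    refine ⟨⟨?_, ?_⟩, ⟨?_, ?_⟩, ⟨?_, ?_⟩⟩ <;> linarith [h7.1, h7.2, h8.1, h8.2, h9.1, h9.2, h10.1, h10.2,
      h11.1, h11.2, h12.1, h12.2]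

/-- the four-point set -/
noncomputable def tet (p : Par) : Finset E3 := by
  classical
  exact univ.image (fun i => pt (V p i))

lemma coe_tet (p : Par) : (tet p : Set E3) = Set.range (fun i => pt (V p i)) := by
  classical
  simp [tet]

/-- A vertex of the tetrahedron is determined by the inequalities satisfied by its coordinates. -/
lemma tet_inj (K : ℕ) : Set.InjOn tet (D K : Set Par) := by
  classical
  intro p hp p' hp' heq
  rw [mem_coe] at hp hp'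
  have hset : Set.range (fun i => pt (V p i)) = Set.range (fun i => pt (V p' i)) := by
    rw [← coe_tet, ← coe_tet, heq]
  have hset2 : Set.range (V p) = Set.range (V p') := by
    have h1 : Set.range (fun i => pt (V p i)) = pt '' Set.range (V p) := by
      rw [← Set.range_comp]; rfl
    have h2 : Set.range (fun i => pt (V p' i)) = pt '' Set.range (V p') := by
      rw [← Set.range_comp]; rfl
    rw [h1, h2] at hset
    exact pt_injective.image_injective hset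
  obtain ⟨v, q⟩ := p
  obtain ⟨v', q'⟩ := p'
  rw [D, mem_product] at hp hp'
  obtain ⟨hv, hq⟩ := hp
  obtain ⟨hv', hq'⟩ := hp'
  have b := bounds hq
  have b' := bounds hq'
  obtain ⟨⟨h1, h2⟩, ⟨h3, h4⟩, ⟨h5, h6⟩, ⟨h7, h8⟩, ⟨h9, h10⟩, ⟨h11, h12⟩⟩ := b
  obtain ⟨⟨h1', h2'⟩, ⟨h3', h4'⟩, ⟨h5', h6'⟩, ⟨h7', h8'⟩, ⟨h9', h10'⟩, ⟨h11', h12'⟩⟩ := b'
  rw [abs_le] at h7 h8 h9 h10 h11 h12 h7' h8' h9' h10' h11' h12'
  have hqK : 0 < (K : ℤ) ^ 2 := by
    simp only [mem_product, mem_Icc] at hq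
    have : (1 : ℤ) ≤ K := by linarith [hq.2.1.1, hq.2.1.2]
    positivity
  -- squared distances to the other vertices determine the corner `v`
  have hnq : 0 < nq q := by
    simp only [mem_product, mem_Icc] at hq
    have : 0 < q.2.1 := by linarith [hq.2.1.1]
    unfold nq
    positivity
  have hnq' : 0 < nq q' := by
    simp only [mem_product, mem_Icc] at hq'
    have : 0 < q'.2.1 := by linarith [hq'.2.1.1]
    unfold nq
    positivity
  have hmem : ∀ i, ∃ j, V (v', q') j = V (v, q) i := by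
    intro i
    have : V (v, q) i ∈ Set.range (V (v', q')) := by rw [← hset2]; exact ⟨i, rfl⟩
    exact this
  have hmem' : ∀ j, ∃ i, V (v, q) i = V (v', q') j := by
    intro j
    have : V (v', q') j ∈ Set.range (V (v, q)) := by rw [hset2]; exact ⟨j, rfl⟩
    exact this
  -- `v = v'`
  have hvv : v = v' := by
    obtain ⟨j, hj⟩ := hmem 0
    by_contra hne
    have hj0 : j ≠ 0 := by
      rintro rfl
      exact hne (by simpa [V] using hj.symm)
    -- indices of the other vertices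
    choose g hg using hmem'
    -- all vertices different from `V p 0` are at the same squared distance `nq²`
    have hdist : ∀ i, i ≠ 0 → sd (V (v, q) i) (V (v, q) 0) = (nq q) ^ 2 := by
      intro i hi
      rw [sd_V]
      fin_cases i
      · exact absurd rfl hi
      all_goals simp [sd]
    have hg0 : ∀ k, k ≠ j → g k ≠ 0 := by
      intro k hk h0
      have e1 : V (v', q') k = V (v', q') j := by rw [hj, ← hg k, h0]
      have e2 : sd (V (v', q') k) (V (v', q') j) = 0 := by rw [e1]; simp [sd]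
      rw [sd_V] at e2
      have e3 : (nq (v', q').2) ^ 2 ≠ 0 := by
        have : nq q' ≠ 0 := hnq'.ne'
        simpa using this
      have e4 := (mul_eq_zero.mp e2).resolve_left e3
      revert hk e4
      fin_cases k <;> fin_cases j <;> simp [sd]
    have hall : ∀ k, k ≠ j → sd (V (v', q') k) (V (v', q') j) = (nq q) ^ 2 := by
      intro k hk
      rw [hj, ← hg k]
      exact hdist _ (hg0 k hk)
    -- but the distances from vertex `j ≠ 0` are not all equal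
    have hcon : ∀ k, k ≠ j → (nq q') ^ 2 *
        sd ((![(0, 0, 0), (1, 0, 0), (0, 1, 0), (0, 0, 1)] : Fin 4 → ℤ × ℤ × ℤ) k)
          ((![(0, 0, 0), (1, 0, 0), (0, 1, 0), (0, 0, 1)] : Fin 4 → ℤ × ℤ × ℤ) j) = (nq q) ^ 2 := by
      intro k hk
      rw [← hall k hk, sd_V]
    have hpos : 0 < (nq q') ^ 2 := by positivity
    have k0 := hcon 0 (Ne.symm hj0)
    fin_cases j
    · exact absurd rfl hj0
    · have k2 := hcon 2 (by decide)
      simp [sd] at k0 k2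
      omega
    · have k2 := hcon 1 (by decide)
      simp [sd] at k0 k2
      omega
    · have k2 := hcon 1 (by decide)
      simp [sd] at k0 k2
      omega
  subst hvv
  -- the columns agree
  have c1 : col1 q = col1 q' := by
    obtain ⟨j, hj⟩ := hmem 1
    fin_cases j
    · exfalso
      have := congrArg Prod.fst hj
      simp [V] at this
      linarith
    · simpa [V] using hj.symm
    · exfalso
      have := congrArg Prod.fst hj
      simp [V] at this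
      linarith [h9'.2]
    · exfalso
      have := congrArg Prod.fst hj
      simp [V] at this
      linarith [h11'.2]
  have c2 : col2 q = col2 q' := by
    obtain ⟨j, hj⟩ := hmem 2
    fin_cases j
    · exfalso
      have := congrArg (fun x => x.2.1) hj
      simp [V] at this
      linarith
    · exfalso
      have := congrArg (fun x => x.2.1) hj
      simp [V] at this
      linarith [h7'.2]
    · simpa [V] using hj.symm
    · exfalso
      have := congrArg (fun x => x.2.1) hj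
      simp [V] at this
      linarith [h12'.2]
  have c3 : col3 q = col3 q' := by
    obtain ⟨j, hj⟩ := hmem 3
    fin_cases j
    · exfalso
      have := congrArg (fun x => x.2.2) hj
      simp [V] at this
      linarith
    · exfalso
      have := congrArg (fun x => x.2.2) hj
      simp [V] at this
      linarith [h8'.2]
    · exfalso
      have := congrArg (fun x => x.2.2) hj
      simp [V] at this
      linarith [h10'.2]
    · simpa [V] using hj.symm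
  -- the norms agree
  have hn : nq q = nq q' := by
    have e : (nq q) ^ 2 = (nq q') ^ 2 := by
      rw [← col1_sq, ← col1_sq, c1]
    exact (sq_eq_sq₀ hnq.le hnq'.le).mp e
  obtain ⟨a, b, c, d⟩ := q
  obtain ⟨a', b', c', d'⟩ := q'
  simp only [mem_product, mem_Icc] at hq hq'
  obtain ⟨⟨ha1, ha2⟩, ⟨hb1, hb2⟩, ⟨hc1, hc2⟩, ⟨hd1, hd2⟩⟩ := hq
  obtain ⟨⟨ha1', ha2'⟩, ⟨hb1', hb2'⟩, ⟨hc1', hc2'⟩, ⟨hd1', hd2'⟩⟩ := hq'
  have f1 := congrArg Prod.fst c1
  have f2 := congrArg (fun x => x.2.1) c2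
  have f3 := congrArg (fun x => x.2.2) c3
  simp only [col1, col2, col3, nq] at f1 f2 f3 hn
  have hK0 : (0 : ℤ) ≤ K := by positivity
  have ea : a ^ 2 = a' ^ 2 := by linarith
  have eb : b ^ 2 = b' ^ 2 := by linarith
  have ec : c ^ 2 = c' ^ 2 := by linarith
  have ed : d ^ 2 = d' ^ 2 := by linarith
  have sq_inj : ∀ x y : ℤ, 0 < x → 0 < y → x ^ 2 = y ^ 2 → x = y := by
    intro x y hx hy h
    nlinarith
  rw [sq_inj a a' (by linarith) (by linarith) ea, sq_inj b b' (by linarith) (by linarith) eb,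
    sq_inj c c' (by linarith) (by linarith) ec, sq_inj d d' (by linarith) (by linarith) ed]

/-- the point set -/
noncomputable def PB (K : ℕ) : Finset E3 := by
  classical
  exact (Box K).image pt

lemma card_PB (K : ℕ) : (PB K).card = (170 * K ^ 2 + 1) ^ 3 := by
  classical
  rw [PB, card_image_of_injective _ pt_injective, card_Box]

lemma count_ge (K : ℕ) (P : Finset E3) (hP : PB K ⊆ P) :
    (24 * K ^ 2) ^ 3 * K ^ 4 ≤ similarCopies P corner := by
  classical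
  have hfin : {S : Finset E3 | S ⊆ P ∧ ∃ f : Fin 4 → E3, (S : Set E3) = Set.range f ∧
      Similar f corner}.Finite := by
    refine (P.powerset.finite_toSet).subset ?_
    intro T hT
    simp only [coe_powerset, Set.mem_preimage, Set.mem_powerset_iff, coe_subset]
    exact hT.1
  have hsub : ((D K).image tet : Set (Finset E3)) ⊆
      {S : Finset E3 | S ⊆ P ∧ ∃ f : Fin 4 → E3, (S : Set E3) = Set.range f ∧
      Similar f corner} := by
    intro T hT
    rw [mem_coe, mem_image] at hT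
    obtain ⟨p, hp, rfl⟩ := hT
    refine ⟨?_, fun i => pt (V p i), coe_tet p, ?_⟩
    · refine subset_trans ?_ hP
      intro x hx
      rw [tet, mem_image] at hx
      obtain ⟨i, _, rfl⟩ := hx
      rw [PB, mem_image]
      exact ⟨V p i, V_mem_Box hp i, rfl⟩
    · apply similar_V
      have hp2 := hp
      rw [D, mem_product] at hp2
      have hq := hp2.2
      simp only [mem_product, mem_Icc] at hq
      have : 0 < p.2.2.1 := by linarith [hq.2.1.1]
      unfold nq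
      positivity
  have h1 := Set.ncard_le_ncard hsub hfin
  rw [Set.ncard_coe_finset, card_image_of_injOn (tet_inj K)] at h1
  exact (card_D K).trans h1

/-- There are a tetrahedron `t` (the standard corner) and a constant `c > 0` such that for all large `n`
some `n` points of `ℝ³` contain at least `c n^{5/3}` four-point subsets similar to `t`. -/
theorem result : ∃ t : Fin 4 → E3, AffineIndependent ℝ t ∧ ∃ c : ℝ, 0 < c ∧ ∃ n₀ : ℕ, ∀ n : ℕ, n₀ ≤ n →
    ∃ P : Finset E3, P.card = n ∧ c * (n : ℝ) ^ (5 / 3 : ℝ) ≤ (similarCopies P t : ℝ) := by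
  refine ⟨corner, corner_indep, (24 : ℝ) ^ 3 / (681 : ℝ) ^ 5, by positivity, 171 ^ 3, fun n hn => ?_⟩
  classical
  have hex : ∃ k, (170 * k ^ 2 + 1) ^ 3 ≤ n ∧ n < (170 * (k + 1) ^ 2 + 1) ^ 3 := by
    have hbound : ∃ m, n < (170 * (m + 1) ^ 2 + 1) ^ 3 := by
      refine ⟨n, ?_⟩
      have h1 := Nat.le_self_pow (n := 3) (by norm_num) (170 * (n + 1) ^ 2 + 1)
      have h2 := Nat.le_self_pow (n := 2) (by norm_num) (n + 1)
      omega
    refine ⟨Nat.find hbound, ?_, Nat.find_spec hbound⟩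
    rcases Nat.eq_zero_or_pos (Nat.find hbound) with h0 | h0
    · rw [h0]; omega
    · have := Nat.find_min hbound (Nat.sub_lt h0 one_pos)
      have h1 : Nat.find hbound - 1 + 1 = Nat.find hbound := by omega
      rw [h1] at this
      omega
  obtain ⟨k, hk1, hk2⟩ := hex
  have hk : 1 ≤ k := by
    rcases Nat.eq_zero_or_pos k with h0 | h0
    · rw [h0] at hk2
      norm_num at hk2
      omega
    · exact h0
  have hcard : (PB k).card ≤ n := by rw [card_PB]; exact hk1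
  obtain ⟨P, hP1, hP2⟩ := Infinite.exists_superset_card_eq (PB k) n hcard
  refine ⟨P, hP2, ?_⟩
  have h1 := count_ge k P hP1
  have h2 : (n : ℝ) ≤ (681 * (k : ℝ) ^ 2) ^ 3 := by
    have h3 : 170 * (k + 1) ^ 2 + 1 ≤ 681 * k ^ 2 := by nlinarith
    have h4 := Nat.pow_le_pow_left h3 3
    have h5 : n ≤ (681 * k ^ 2) ^ 3 := by omega
    exact_mod_cast h5
  have h6 : (n : ℝ) ^ (5 / 3 : ℝ) ≤ ((681 * (k : ℝ) ^ 2) ^ 3) ^ (5 / 3 : ℝ) :=
    Real.rpow_le_rpow (by positivity) h2 (by norm_num)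
  have h7 : ((681 * (k : ℝ) ^ 2) ^ 3) ^ (5 / 3 : ℝ) = (681 * (k : ℝ) ^ 2) ^ 5 := by
    rw [← Real.rpow_natCast (681 * (k : ℝ) ^ 2) 3, ← Real.rpow_mul (by positivity),
      ← Real.rpow_natCast (681 * (k : ℝ) ^ 2) 5]
    norm_num
  have h9 : (((24 * k ^ 2) ^ 3 * k ^ 4 : ℕ) : ℝ) ≤ (similarCopies P corner : ℝ) := by exact_mod_cast h1
  push_cast at h9
  rw [h7] at h6
  refine le_trans ?_ h9
  calc (24 : ℝ) ^ 3 / (681 : ℝ) ^ 5 * (n : ℝ) ^ (5 / 3 : ℝ)
      ≤ (24 : ℝ) ^ 3 / (681 : ℝ) ^ 5 * (681 * (k : ℝ) ^ 2) ^ 5 :=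
        mul_le_mul_of_nonneg_left h6 (by positivity)
    _ = (24 * (k : ℝ) ^ 2) ^ 3 * (k : ℝ) ^ 4 := by
        field_simp

end Pool.Agent.Results.MP_36f34d_co.FiveThirds
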